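import Pool.Agent.X39.Near.Pow
import Pool.Agent.X39.Near.DepInt

/-!
# `log α` and the powers `α ^ (β ^ k)` for ALL algebraic numbers `α` close to any number outside a set of dimension zero

The question of Gel'fond and Schneider: are the `n` numbers `log α`, `α ^ β`, …, `α ^ (β ^ (n - 1))` algebraically
independent, for `α ≠ 0` algebraic and `β` algebraic of degree `n ≥ 2`? We prove, outside ONE set `E` of complex numbers of
Hausdorff dimension `0` (for all `β`, number fields, degrees and scales): for every `x ≠ 0`, every logarithm `l₀` of `x`,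
every such `β`, every number field `F` in `ℂ` and every `ω > 0`, these numbers, for ALL `α ∈ F` of height at most `T` with
`|α - x| ≤ T ^ (-ω)` and the determination of `log α` close to `l₀`, satisfy no relation of bounded degree with coefficients
of polynomial size, even approximately; the coefficients may be polynomials in arbitrary constants `ξ_1, …, ξ_g` fixed in
advance. In particular nonzero integral polynomials `P` of degree at most `d` and of height at most `T ^ A` satisfy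
`|P (log α, α ^ β, …)| > T ^ (-B)`. The same is proved for `log α`, `α ^ γ_1`, …, `α ^ γ_m` and all algebraic numbers
`γ_k` such that `1, γ_1, …, γ_m` are linearly independent over `ℚ`.

Proof: `exp s`, `s`, `exp (γ_k s)` are algebraically independent functions; the levels of the library give, on compact sets,
at most `C T ^ ε` exceptional points of height `T`, for every `ε > 0`, and so a limsup set of dimension `0`
(`Pool.Agent.X39.Near`); all `γ` and all branches of the logarithm are treated at the same time.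
-/

set_option autoImplicit false

open MvPolynomial NumberField

namespace Pool.Agent.Results.MP_327059_nt.ApproximationsOfAllNumbers

open Pool.Agent.X39.Near (Size Dep)

/-- the numbers `log α`, `α ^ γ_1`, …, `α ^ γ_m` for `log α = ℓ` -/
noncomputable def powers {m : ℕ} (γ : Fin m → ℂ) (ℓ : ℂ) : Option (Fin m) → ℂ
  | none => ℓ
  | some k => Complex.exp (γ k * ℓ)

/-- `1, γ_1, …, γ_m` are algebraic and linearly independent over `ℚ`. -/
def Exponents {m : ℕ} (γ : Fin m → ℂ) : Prop :=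
  (∀ k, IsAlgebraic ℚ (γ k)) ∧ ∀ (c₀ : ℤ) (c : Fin m → ℤ), (c₀ : ℂ) + ∑ k, (c k : ℂ) * γ k = 0 → c₀ = 0 ∧ c = 0

/-- There is no relation between `log α` and the `α ^ γ_k`: (1) in the sense of `Dep`, (2) for integral polynomials. -/
def NoRelation {m g : ℕ} (γ : Fin m → ℂ) (ξ : Fin g → ℂ) (F : Type) [Field F] [NumberField F] (ι : F →+* ℂ)
    (d A : ℕ) (B T : ℝ) (ℓ : ℂ) : Prop :=
  ¬ Dep (powers γ ℓ) ξ F ι d A B T ∧
  ∀ P : MvPolynomial (Option (Fin m)) ℤ, P ≠ 0 → (∀ j, P.degreeOf j ≤ d) →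
    (∀ e, |((P.coeff e : ℤ) : ℝ)| ≤ T ^ A) → T ^ (-B) < ‖aeval (powers γ ℓ) P‖

/-- the powers of an algebraic number of degree `m + 1` -/
theorem exponents_pow {β : ℂ} (hβ : IsAlgebraic ℚ β) {m : ℕ} (hm : (minpoly ℚ β).natDegree = m + 1) :
    Exponents (fun k : Fin m => β ^ ((k : ℕ) + 1)) := by
  refine ⟨fun k => hβ.pow _, fun c₀ c hc => ?_⟩
  set p : Polynomial ℚ := Polynomial.C (c₀ : ℚ) + ∑ k : Fin m, Polynomial.C (c k : ℚ) * Polynomial.X ^ ((k : ℕ) + 1) with hp
  have hev : Polynomial.aeval β p = 0 := by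
    rw [hp, map_add, map_sum, ← hc]
    congr 1
    · simp
    · refine Finset.sum_congr rfl fun k _ => ?_
      simp
  have hdeg : p.natDegree < m + 1 := by
    rw [Nat.lt_succ_iff]
    refine (Polynomial.natDegree_add_le _ _).trans (max_le (by simp) ?_)
    refine Polynomial.natDegree_sum_le_of_forall_le _ _ fun k _ => ?_
    refine (Polynomial.natDegree_C_mul_X_pow_le _ _).trans ?_
    have := k.2
    omega
  have h0 : p = 0 := by
    by_contra hne
    have h1 := Polynomial.natDegree_le_of_dvd (minpoly.dvd ℚ β hev) hne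
    omega
  have hco : ∀ n : ℕ, p.coeff n = (if n = 0 then (c₀ : ℚ) else 0) +
      ∑ k : Fin m, if n = (k : ℕ) + 1 then (c k : ℚ) else 0 := by
    intro n
    rw [hp, Polynomial.coeff_add, Polynomial.coeff_C, Polynomial.finsetSum_coeff]
    congr 1
    refine Finset.sum_congr rfl fun k _ => ?_
    rw [Polynomial.coeff_C_mul_X_pow]
  constructor
  · have h1 := hco 0
    rw [h0, Polynomial.coeff_zero, if_pos rfl, Finset.sum_eq_zero (fun k _ => if_neg (by omega)), add_zero] at h1
    exact_mod_cast h1.symm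
  · funext k
    have h1 := hco ((k : ℕ) + 1)
    rw [h0, Polynomial.coeff_zero, if_neg (by omega), zero_add, Finset.sum_eq_single k] at h1
    · rw [if_pos rfl] at h1
      exact_mod_cast h1.symm
    · intro b _ hb
      rw [if_neg]
      intro h
      exact hb (Fin.ext (by omega))
    · intro h
      exact absurd (Finset.mem_univ k) h

/-- **Theorem.** Let `ξ_1, …, ξ_g` be complex numbers. There is a set `E` of complex numbers of Hausdorff dimension `0` such
that for all `x` outside `E` and all `l₀` with `exp l₀ = x`: (1) for all algebraic `β` of degree `m + 1`, `m ≥ 1`, all number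
fields `F` with an embedding `ι` in `ℂ`, all `d`, `A` and `ω > 0` there are `B`, `T₁` such that for all `T ≥ T₁` and all
`α ∈ F`, quotients of integers with conjugates at most `T`, with `|ι α - x| ≤ T ^ (-ω)`, and the logarithm `ℓ` of `ι α` with
`|ℓ - l₀| < 1`, there is no relation between `log α = ℓ`, `α ^ β`, …, `α ^ (β ^ m)`; (2) the same holds for
`log α`, `α ^ γ_1`, …, `α ^ γ_m` for all algebraic `γ_k` with `1, γ_1, …, γ_m` linearly independent over `ℚ`. -/
theorem result {g : ℕ} (ξ : Fin g → ℂ) :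
    ∃ E : Set ℂ, dimH E = 0 ∧ ∀ x : ℂ, x ∉ E → ∀ l₀ : ℂ, Complex.exp l₀ = x →
      (∀ (m : ℕ) (β : ℂ), 1 ≤ m → IsAlgebraic ℚ β → (minpoly ℚ β).natDegree = m + 1 →
        ∀ (F : Type) [Field F] [NumberField F] (ι : F →+* ℂ) (d A : ℕ) (ω : ℝ), 0 < ω → ∃ B T₁ : ℝ, ∀ T : ℝ, T₁ ≤ T →
          ∀ α : F, Size F T α → ‖ι α - x‖ ≤ T ^ (-ω) → ∀ ℓ : ℂ, Complex.exp ℓ = ι α → ‖ℓ - l₀‖ < 1 →
            NoRelation (fun k : Fin m => β ^ ((k : ℕ) + 1)) ξ F ι d A B T ℓ) ∧
      ∀ (m : ℕ) (γ : Fin m → ℂ), Exponents γ →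
        ∀ (F : Type) [Field F] [NumberField F] (ι : F →+* ℂ) (d A : ℕ) (ω : ℝ), 0 < ω → ∃ B T₁ : ℝ, ∀ T : ℝ, T₁ ≤ T →
          ∀ α : F, Size F T α → ‖ι α - x‖ ≤ T ^ (-ω) → ∀ ℓ : ℂ, Complex.exp ℓ = ι α → ‖ℓ - l₀‖ < 1 →
            NoRelation γ ξ F ι d A B T ℓ := by
  obtain ⟨E, h1, h2⟩ := Pool.Agent.X39.Near.pw_near {β : ℂ | IsAlgebraic ℚ β} (Algebraic.countable ℚ ℂ) ξ
  have key : ∀ x : ℂ, x ∉ E → ∀ l₀ : ℂ, Complex.exp l₀ = x → ∀ (m : ℕ) (γ : Fin m → ℂ), Exponents γ →
        ∀ (F : Type) [Field F] [NumberField F] (ι : F →+* ℂ) (d A : ℕ) (ω : ℝ), 0 < ω → ∃ B T₁ : ℝ, ∀ T : ℝ, T₁ ≤ T →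
          ∀ α : F, Size F T α → ‖ι α - x‖ ≤ T ^ (-ω) → ∀ ℓ : ℂ, Complex.exp ℓ = ι α → ‖ℓ - l₀‖ < 1 →
            NoRelation γ ξ F ι d A B T ℓ := by
    intro x hx l₀ hl m γ hγ F _ _ ι d A ω hω
    obtain ⟨B, T₁, h3⟩ := h2 x hx l₀ hl m γ hγ.1 hγ.2 F ι d A ω hω
    refine ⟨B, max T₁ 1, fun T hT α hα hαx ℓ hℓ hℓl => ?_⟩
    have hv : powers γ ℓ = fun j => Pool.Agent.X39.Near.pw γ j ℓ := by
      funext j
      rcases j with _ | k <;> rfl
    have h4 : ¬ Dep (powers γ ℓ) ξ F ι d A B T := by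
      rw [hv]
      exact h3 T ((le_max_left _ _).trans hT) α hα hαx ℓ hℓ hℓl
    have hT0 : 0 < T := lt_of_lt_of_le one_pos ((le_max_right _ _).trans hT)
    exact ⟨h4, fun P hP hPd hPA => Pool.Agent.X39.Near.int_of_not_dep h4 hT0 P hP hPd fun e => by
      exact_mod_cast hPA e⟩
  refine ⟨E, h1, fun x hx l₀ hl => ⟨fun m β _ hβ hm => ?_, key x hx l₀ hl⟩⟩
  exact key x hx l₀ hl m _ (exponents_pow hβ hm)

end Pool.Agent.Results.MP_327059_nt.ApproximationsOfAllNumbers
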